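import Mathlib

set_option autoImplicit false

/-!
Zeros against poles for Nevanlinna functions: definitions and the statements of the parts.
-/

namespace Pool.Agent.Y922.NV

open Complex ComplexConjugate
open scoped Real

/-- `m` is a Nevanlinna function: meromorphic on the whole plane, analytic off the real axis, with
`Im m > 0` in the open upper half plane and `Im m < 0` in the open lower half plane. -/
structure IsNevanlinna (m : ℂ → ℂ) : Prop where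
  meromorphic : ∀ z : ℂ, MeromorphicAt m z
  analytic : ∀ z : ℂ, z.im ≠ 0 → AnalyticAt ℂ m z
  im_pos : ∀ z : ℂ, 0 < z.im → 0 < (m z).im
  im_neg : ∀ z : ℂ, z.im < 0 → (m z).im < 0

/-- Multiplicity of `z` as a zero of `f` (zero if `z` is not a zero). -/
noncomputable def zeroMult (f : ℂ → ℂ) (z : ℂ) : ℕ := (meromorphicOrderAt f z).untop₀.toNat

/-- Multiplicity of `z` as a pole of `f` (zero if `z` is not a pole). -/
noncomputable def poleMult (f : ℂ → ℂ) (z : ℂ) : ℕ := (-(meromorphicOrderAt f z).untop₀).toNat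

/-- Number of zeros of `f` in `U`, with multiplicity: supremum over the finite subsets of `U`. -/
noncomputable def zeroCount (f : ℂ → ℂ) (U : Set ℂ) : ℕ∞ :=
  ⨆ F : {F : Finset ℂ // (F : Set ℂ) ⊆ U}, ((∑ z ∈ F.1, zeroMult f z : ℕ) : ℕ∞)

/-- Number of poles of `f` in `U`, with multiplicity: supremum over the finite subsets of `U`. -/
noncomputable def poleCount (f : ℂ → ℂ) (U : Set ℂ) : ℕ∞ :=
  ⨆ F : {F : Finset ℂ // (F : Set ℂ) ⊆ U}, ((∑ z ∈ F.1, poleMult f z : ℕ) : ℕ∞)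

/-- The polynomial with zeros `a i`. -/
noncomputable def PP {ι : Type} (s : Finset ι) (a : ι → ℂ) (z : ℂ) : ℂ := ∏ i ∈ s, (z - a i)

/-- The polynomial with zeros `conj (a i)`. -/
noncomputable def QQ {ι : Type} (s : Finset ι) (a : ι → ℂ) (z : ℂ) : ℂ := ∏ i ∈ s, (z - conj (a i))

/-- The rational function `i (Q + P) / (Q - P)`. -/
noncomputable def MM {ι : Type} (s : Finset ι) (a : ι → ℂ) (z : ℂ) : ℂ :=
  I * (QQ s a z + PP s a z) / (QQ s a z - PP s a z)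

/-- The increasing phase of the finite Blaschke product `P / Q` on the real axis. -/
noncomputable def theta {ι : Type} (s : Finset ι) (a : ι → ℂ) (x : ℝ) : ℝ :=
  ∑ i ∈ s, (π + 2 * Real.arctan ((x - (a i).re) / (a i).im))

/-- Nevanlinna property. -/
def S_NEV : Prop := ∀ (ι : Type) (s : Finset ι) (a : ι → ℂ), s.Nonempty → (∀ i ∈ s, 0 < (a i).im) →
  IsNevanlinna (MM s a)

open Classical in
/-- Zeros of `M - i` are the points `a i`. -/
def S_ZERO : Prop := ∀ (ι : Type) (s : Finset ι) (a : ι → ℂ), s.Nonempty → (∀ i ∈ s, 0 < (a i).im) →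
  ∀ U : Set ℂ, zeroCount (fun z => MM s a z - I) U ≤ ((s.filter (fun i => a i ∈ U)).card : ℕ∞)

/-- Poles of `M` are the real points whose phase is a multiple of `2 π`. -/
def S_POLE : Prop := ∀ (ι : Type) (s : Finset ι) (a : ι → ℂ), s.Nonempty → (∀ i ∈ s, 0 < (a i).im) →
  ∀ (U : Set ℂ) (x1 x2 : ℝ) (K : ℕ), x1 < x2 → (∀ x : ℝ, x1 < x → x < x2 → (x : ℂ) ∈ U) →
    2 * π * (K + 1) ≤ theta s a x2 - theta s a x1 → (K : ℕ∞) ≤ poleCount (MM s a) U

/-- `M` stays away from `i` high up in the upper half plane if the `a i` have small heights. -/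
def S_NDG : Prop := ∀ (ι : Type) (s : Finset ι) (a : ι → ℂ), s.Nonempty → (∀ i ∈ s, 0 < (a i).im) →
  (∑ i ∈ s, (a i).im ≤ 3 / 2) → ∀ z : ℂ, 12 ≤ z.im → 1 / 2 ≤ ‖MM s a z - I‖

/-- Phase of the grid part. -/
def S_GRID : Prop := ∀ (j : ℕ) (x1 x2 : ℝ), -1 ≤ x1 → x1 < x2 → x2 ≤ 1 →
  2 * π * ((((Finset.Icc (-((j : ℤ) + 1)) ((j : ℤ) + 1)).filter
      (fun k : ℤ => x1 < (k : ℝ) / (j + 1) ∧ (k : ℝ) / (j + 1) < x2)).card : ℝ) - 2) - 1 ≤
    ∑ k ∈ Finset.Icc (-((j : ℤ) + 1)) ((j : ℤ) + 1),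
      (2 * Real.arctan ((x2 - (k : ℝ) / (j + 1)) / (1 / (100 * ((j : ℝ) + 1) ^ 2))) -
        2 * Real.arctan ((x1 - (k : ℝ) / (j + 1)) / (1 / (100 * ((j : ℝ) + 1) ^ 2))))

/-- Phase of the lacunary part. -/
def S_LAC : Prop := ∀ (N : ℕ) (c x1 x2 : ℝ), 0 < x1 - c → x1 - c ≤ (1 / 2) ^ N → x1 < x2 →
  π * N - 2 / (x2 - x1) - 4 ≤
    ∑ n ∈ Finset.range N, (2 * Real.arctan ((x2 - c) / (1 / 2) ^ (n + 1)) -
      2 * Real.arctan ((x1 - c) / (1 / 2) ^ (n + 1)))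

/-- Centre of the lacunary part of the `j`-th function. -/
noncomputable def cen (j : ℕ) : ℝ := -1 + (j.unpair.2 : ℝ) * (1 / 2) ^ j.unpair.1

/-- Index set of the `j`-th function. -/
noncomputable def idx (j : ℕ) : Finset (ℤ ⊕ ℕ) :=
  (Finset.Icc (-((j : ℤ) + 1)) ((j : ℤ) + 1)).disjSum (Finset.range j.unpair.1)

/-- The points `a i` of the `j`-th function: a fine grid very close to the real axis and a lacunary
sequence above the centre. -/
noncomputable def pt (j : ℕ) : ℤ ⊕ ℕ → ℂ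
  | Sum.inl k => ⟨(k : ℝ) / (j + 1), 1 / (100 * ((j : ℝ) + 1) ^ 2)⟩
  | Sum.inr n => ⟨cen j, (1 / 2) ^ (n + 1)⟩

/-- The `j`-th function. -/
noncomputable def mm (j : ℕ) : ℂ → ℂ := MM (idx j) (pt j)

/-- Basic properties of the points. -/
def S_PTS : Prop := ∀ j : ℕ, (idx j).Nonempty ∧ (∀ i ∈ idx j, 0 < (pt j i).im) ∧
  ∑ i ∈ idx j, (pt j i).im ≤ 3 / 2 ∧
  ∀ x1 x2 : ℝ, theta (idx j) (pt j) x2 - theta (idx j) (pt j) x1 =
    (∑ k ∈ Finset.Icc (-((j : ℤ) + 1)) ((j : ℤ) + 1),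
      (2 * Real.arctan ((x2 - (k : ℝ) / (j + 1)) / (1 / (100 * ((j : ℝ) + 1) ^ 2))) -
        2 * Real.arctan ((x1 - (k : ℝ) / (j + 1)) / (1 / (100 * ((j : ℝ) + 1) ^ 2))))) +
    ∑ n ∈ Finset.range j.unpair.1, (2 * Real.arctan ((x2 - cen j) / (1 / 2) ^ (n + 1)) -
      2 * Real.arctan ((x1 - cen j) / (1 / 2) ^ (n + 1)))

/-- The poles become dense. -/
def S_DENSE : Prop := S_POLE → S_GRID → S_PTS → ∀ J : Set ℝ, J ⊆ Set.Ioo (-1 : ℝ) 1 →
  (interior J).Nonempty → ∀ K : ℕ, ∀ᶠ j : ℕ in Filter.atTop,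
    (K : ℕ∞) ≤ poleCount (mm j) ((fun x : ℝ => (x : ℂ)) '' J)

/-- The excess of poles in rectangles is unbounded. -/
def S_EXC : Prop := S_ZERO → S_POLE → S_GRID → S_LAC → S_PTS → ∀ (x1 x2 h : ℝ), -1 < x1 → x1 < x2 →
  x2 < 1 → 0 < h → ∀ C : ℕ, ∃ j : ℕ,
    zeroCount (fun z => mm j z - I) {z : ℂ | x1 < z.re ∧ z.re < x2 ∧ |z.im| < h} + (C : ℕ∞) ≤
      poleCount (mm j) {z : ℂ | x1 < z.re ∧ z.re < x2 ∧ |z.im| < h}

end Pool.Agent.Y922.NV
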